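import Pool.Agent.W690.Cot.Main2

/-!
# Random projections of the cross-polytope have cotype 2, for every `N ≥ n`

`X_{N,n}` is isometric to the quotient of `ℓ₁^N` by the kernel of a Gaussian `n × N` matrix, that is
to `ℝ^n` with the norm whose unit ball is the image `{∑ t_j g_j : ∑ |t_j| ≤ 1}` of the cross-polytope
under the matrix with independent standard Gaussian columns `g_1, …, g_N`.

Outline of the proof.  Let `G t = ∑ t_j g_j` and `L = 1 + log (N / n)`.  With high probability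
`|G b|₂ ≤ C (√n |b|₂ + √L |b|₁)`, `c √n |b|₂ ≤ |G b|₂ + C √L |b|₁` for all `b`, and (for
`N ≥ 62208 n`) the unit ball contains the Euclidean ball of radius `√L / 4`.  Let `f` be an odd
norm preserving lift to `ℓ₁^N` of a Rademacher sum `∑ σ_i y_i`.  The vector `T f - f / 2` (`T` the
noise operator with parameter `1 / 2`) lies in the kernel of `G` and has controlled `ℓ₁` norm, so
that its Euclidean norm is small, and this bounds the part of `f` of degree at least two in
`L²(ℓ₂^N)`.  The coordinates on which `|f|` is large with probability more than `1 / 8` are few,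
and there the degree one part of `f` is controlled in `ℓ₁`; on the other coordinates `f` is
controlled in `L²(ℓ₂)` by its truncation, by comparison of moments of Rademacher sums, and the inner
radius of the unit ball takes over.
-/

set_option autoImplicit false

open MeasureTheory ProbabilityTheory

namespace Pool.Agent.Results.MP_61c8ab_an.CotypeTwo

/-- The law of `N` independent standard Gaussian vectors `g_1, …, g_N` in `ℝ^n`. -/
noncomputable def gaussLaw (N n : ℕ) : Measure (Fin N → Fin n → ℝ) :=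
  Measure.pi fun _ : Fin N => Measure.pi fun _ : Fin n => gaussianReal 0 1

/-- The vectors `g_1, …, g_N` span `ℝ^n`. -/
def Spans {N n : ℕ} (g : Fin N → Fin n → ℝ) : Prop :=
  ∀ y : Fin n → ℝ, ∃ t : Fin N → ℝ, ∑ j, t j • g j = y

/-- The norm on `ℝ^n` whose unit ball is the image of the cross-polytope `B_1^N` under
`t ↦ ∑ t_j g_j`: the quotient norm of `ℓ₁^N` by the kernel of this map. -/
noncomputable def qnorm {N n : ℕ} (g : Fin N → Fin n → ℝ) (y : Fin n → ℝ) : ℝ :=
  sInf {s : ℝ | ∃ t : Fin N → ℝ, ∑ j, t j • g j = y ∧ ∑ j, |t j| = s}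

/-- The function `p` is a norm on `ℝ^n`. -/
def IsNorm {n : ℕ} (p : (Fin n → ℝ) → ℝ) : Prop :=
  (∀ x, p x = 0 ↔ x = 0) ∧ (∀ (r : ℝ) x, p (r • x) = |r| * p x) ∧ ∀ x y, p (x + y) ≤ p x + p y

/-- Cotype `q` with constant `C`: `(∑ ‖x_i‖^q)^{1/q} ≤ C E ‖∑ ε_i x_i‖` for all finite families. -/
def HasCotype {n : ℕ} (p : (Fin n → ℝ) → ℝ) (q C : ℝ) : Prop :=
  ∀ (m : ℕ) (x : Fin m → Fin n → ℝ),
    (∑ i, p (x i) ^ q) ^ (1 / q) ≤
      C * ((1 / (2 : ℝ) ^ m) *
        ∑ σ : Fin m → Bool, p (∑ i, (if σ i then (1 : ℝ) else -1) • x i))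

lemma isNorm_of_surj {N n : ℕ} {g : Fin N → Fin n → ℝ} (hg : H459R3.Surj g) :
    IsNorm (qnorm g) := by
  have e : qnorm g = H459R3.xs hg := rfl
  rw [e]
  refine ⟨fun x => ⟨fun h => ?_, fun h => by rw [h, map_zero]⟩, fun r x => ?_, fun x y =>
    map_add_le_add _ x y⟩
  · rw [H459R3.xs_apply] at h
    obtain ⟨t, ht, ht1⟩ := H459R3.xn_attained hg x
    rw [h, H459R3.l1_apply] at ht1
    have h0 : t = 0 := by
      funext i
      have := (Finset.sum_eq_zero_iff_of_nonneg (fun i _ => abs_nonneg (t i))).1 ht1 i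
        (Finset.mem_univ i)
      simpa using this
    rw [← ht, h0, map_zero]
  · rw [map_smul_eq_mul, Real.norm_eq_abs]

lemma sum_rpow_le {k : ℕ} {a : Fin k → ℝ} (ha : ∀ i, 0 ≤ a i) {q : ℝ} (hq : 2 ≤ q) :
    ∑ i, a i ^ q ≤ (∑ i, a i ^ 2) ^ (q / 2) := by
  have h := Finset.sum_le_sum (s := (Finset.univ : Finset (Fin k)))
    (f := fun i => a i ^ q) (g := fun i => a i ^ 2 * (∑ j, a j ^ 2) ^ (q / 2 - 1)) ?_
  · refine h.trans (le_of_eq ?_)
    rw [← Finset.sum_mul]
    set S := ∑ i, a i ^ 2 with hS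
    have hS0 : 0 ≤ S := Finset.sum_nonneg fun i _ => sq_nonneg _
    rcases hS0.eq_or_lt with h0 | h0
    · rw [← h0, zero_mul, Real.zero_rpow (by linarith)]
    · nth_rw 1 [← Real.rpow_one S]
      rw [← Real.rpow_add h0]
      congr 1
      ring
  · intro i _
    have hi : a i ^ 2 ≤ ∑ j, a j ^ 2 :=
      Finset.single_le_sum (f := fun j => a j ^ 2) (fun j _ => sq_nonneg _) (Finset.mem_univ i)
    rcases (ha i).eq_or_lt with h0 | h0
    · rw [← h0, Real.zero_rpow (by linarith)]
      have : 0 ≤ (∑ j, a j ^ 2) ^ (q / 2 - 1) :=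
        Real.rpow_nonneg (Finset.sum_nonneg fun i _ => sq_nonneg _) _
      positivity
    · have e : a i ^ q = a i ^ 2 * (a i ^ 2) ^ (q / 2 - 1) := by
        rw [← Real.rpow_natCast (a i) 2, ← Real.rpow_mul h0.le, ← Real.rpow_add h0]
        congr 1
        push_cast
        ring
      show a i ^ q ≤ _
      rw [e]
      exact mul_le_mul_of_nonneg_left (Real.rpow_le_rpow (sq_nonneg _) hi (by linarith))
        (sq_nonneg _)

lemma cotype_of_good {N n : ℕ} {g : Fin N → Fin n → ℝ} {K : ℝ} (hK : 1 ≤ K)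
    (h : H459R3.Good2 g K) {q : ℝ} (hq : 2 ≤ q) : HasCotype (qnorm g) q (√(2 * K)) := by
  obtain ⟨hg, h⟩ := h
  intro m x
  have hK0 : 0 < K := by linarith
  have e1 : (1 / (2 : ℝ) ^ m) * ∑ σ : Fin m → Bool,
      qnorm g (∑ i, (if σ i then (1 : ℝ) else -1) • x i)
      = H459R3.avg (fun σ => H459R3.xs hg (H459R3.rad x σ)) :=
    H459R3.avg_eq_sum (fun σ => qnorm g (∑ i, (if σ i then (1 : ℝ) else -1) • x i))
  rw [e1]
  set a : ℝ := H459R3.avg (fun σ => H459R3.xs hg (H459R3.rad x σ)) with ha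
  have ha0 : 0 ≤ a := H459R3.avg_nonneg fun σ => apply_nonneg _ _
  have hx0 : ∀ i, 0 ≤ qnorm g (x i) := fun i => H459R3.xn_nonneg g _
  have h1 : ∑ i, qnorm g (x i) ^ 2 ≤ (√(2 * K) * a) ^ 2 := by
    have h2 : H459R3.ms (H459R3.xs hg) x ≤ 2 * a ^ 2 := H459R3.kahane (H459R3.xs hg) x
    rw [mul_pow, Real.sq_sqrt (by positivity)]
    refine (h m x).trans ?_
    nlinarith
  have h3 : ∑ i, qnorm g (x i) ^ q ≤ ((√(2 * K) * a) ^ 2) ^ (q / 2) :=
    (sum_rpow_le hx0 hq).trans
      (Real.rpow_le_rpow (Finset.sum_nonneg fun i _ => sq_nonneg _) h1 (by linarith))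
  have h4 : ((√(2 * K) * a) ^ 2) ^ (q / 2) = (√(2 * K) * a) ^ q := by
    rw [← Real.rpow_natCast (√(2 * K) * a) 2, ← Real.rpow_mul (by positivity)]
    congr 1
    push_cast
    ring
  rw [h4] at h3
  refine (Real.rpow_le_rpow (Finset.sum_nonneg fun i _ => Real.rpow_nonneg (hx0 i) _) h3
    (by positivity)).trans (le_of_eq ?_)
  rw [← Real.rpow_mul (by positivity), mul_one_div_cancel (by linarith), Real.rpow_one]

/-- **Random projections of the cross-polytope have cotype 2, uniformly in `N ≥ n`.**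
There is a universal constant `C` such that, for all `1 ≤ n ≤ N`, outside an event of probability
at most `4 exp (-n)`, the Gaussian vectors `g_1, …, g_N` span `ℝ^n` and the norm whose unit ball is
the image of the cross-polytope `B_1^N` under `t ↦ ∑ t_j g_j` has cotype `q` with constant at most
`C` for every `q ≥ 2`, in particular cotype `2`. -/
theorem result : ∃ C : ℝ, 0 < C ∧ ∀ n N : ℕ, 0 < n → n ≤ N →
    gaussLaw N n {g | ¬ (Spans g ∧ IsNorm (qnorm g) ∧
      ∀ q : ℝ, 2 ≤ q → HasCotype (qnorm g) q C)} ≤ ENNReal.ofReal (4 * Real.exp (-n)) := by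
  obtain ⟨K, hK, h⟩ := W690.Cot.main_bad2
  refine ⟨√(2 * K), Real.sqrt_pos.2 (by linarith), fun n N hn hnN => ?_⟩
  refine le_trans (measure_mono ?_) (h N n hn hnN)
  intro g hg hgood
  exact hg ⟨hgood.choose, isNorm_of_surj hgood.choose, fun q hq => cotype_of_good hK hgood hq⟩

end Pool.Agent.Results.MP_61c8ab_an.CotypeTwo
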